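import Pool.Agent.Helper76.CV.Goals

/-!
# MP_eec6f5_gt, project CV, packet CV-DEU: the derivative of `U`
-/

open scoped ContDiff

namespace Pool.Agent.Helper7.CV.DEU

open Pool.Agent.Helper76.CV

theorem t : Pool.Agent.Helper76.CV.DEU := by
  intro r D x h hC
  have h1 : HasFDerivAt (fun x' : ℝ × E (r + 3) => x'.2)
      (ContinuousLinearMap.snd ℝ ℝ (E (r + 3))) x := hasFDerivAt_snd
  have h2 := h1.norm_sq
  have h3 : HasDerivAt D.C (deriv D.C x.1) x.1 :=
    ((hC.differentiable (by simp)).differentiableAt).hasDerivAt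
  have h4 : HasFDerivAt (fun x' : ℝ × E (r + 3) => D.C x'.1)
      (deriv D.C x.1 • ContinuousLinearMap.fst ℝ ℝ (E (r + 3))) x :=
    h3.comp_hasFDerivAt x hasFDerivAt_fst
  have h5 := (h2.const_sub 1).sub h4
  have h6 : fderiv ℝ (U D) x = _ := h5.fderiv
  rw [h6]
  simp [innerSL_apply_apply]

end Pool.Agent.Helper7.CV.DEU
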